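import Pool.Agent.H54Sharp.Stmt

set_option autoImplicit false

/-! Row (U3): column dominance of the main part (helper3). -/

namespace Pool.Agent.Helper3.Sharp

open Finset Pool.Agent.H54Sharp

theorem step_le (t u d : ℝ) (hd : 0 ≤ d) :
    d * (if u + d ≤ t then 1 else 0) ≤ min t (u + d) - min t u := by
  split_ifs with h
  · rw [min_eq_right h, min_eq_right (by linarith)]
    linarith
  · have : min t u ≤ min t (u + d) := min_le_min le_rfl (by linarith)
    linarith

/-- the tiles of length `d` of `[x, x + S d]` with right end at most `t` -/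
theorem tele (t x d : ℝ) (hd : 0 ≤ d) (S : ℕ) :
    ∑ s ∈ range S, d * (if x + ((s : ℝ) + 1) * d ≤ t then 1 else 0) ≤
      min t (x + S * d) - min t x := by
  induction S with
  | zero => simp
  | succ S ih =>
    rw [sum_range_succ]
    have h := step_le t (x + S * d) d hd
    have e : x + (S : ℝ) * d + d = x + ((S : ℝ) + 1) * d := by ring
    rw [e] at h
    push_cast
    linarith

theorem shift (m : ℕ) (F : ℕ → ℝ) (q : ℕ) :
    ∑ i ∈ range m, F ((q + i) % m) = ∑ c ∈ range m, F c := by
  induction q with
  | zero =>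
    refine sum_congr rfl fun i hi => ?_
    rw [Nat.zero_add, Nat.mod_eq_of_lt (mem_range.1 hi)]
  | succ q ih =>
    rw [← ih]
    have h1 := sum_range_succ (fun i => F ((q + i) % m)) m
    have h2 := sum_range_succ' (fun i => F ((q + i) % m)) m
    have e : F ((q + m) % m) = F ((q + 0) % m) := by
      rw [Nat.add_mod_right, Nat.add_zero]
    have e3 : ∑ i ∈ range m, F ((q + 1 + i) % m) = ∑ i ∈ range m, F ((q + (i + 1)) % m) := by
      refine sum_congr rfl fun i _ => ?_
      congr 2
      ring
    rw [e3]
    rw [h1] at h2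
    rw [e] at h2
    linarith

/-- the same with `i` running backwards -/
theorem shift_down (m : ℕ) (F : ℕ → ℝ) (q : ℕ) :
    ∑ i ∈ range m, F ((q + (m - i)) % m) = ∑ c ∈ range m, F c := by
  rw [← shift m F (q + 1), ← sum_range_reflect]
  refine sum_congr rfl fun i hi => ?_
  have := mem_range.1 hi
  congr 2
  omega

section

variable {m J : ℕ} {L R : ℕ → ℝ} {a : ℕ → ℕ}

/-- the cells of a band tile the band -/
theorem cells (hB : Bands m J L R a) (hm : 1 ≤ m) (t : ℝ) {g : ℕ} (hg : g < J) :
    ∑ c ∈ range m, (min t (cellLeft m L R a g c + Mg L R g / m) -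
        min t (cellLeft m L R a g c)) =
      (min t (L (g + 1)) - min t (L g)) + (min t (R g) - min t (R (g + 1))) := by
  have hm' : (m : ℝ) ≠ 0 := by positivity
  obtain ⟨b, hb⟩ := Nat.exists_eq_add_of_le (hB.ale g hg)
  have hleft := hB.left g hg
  have eL : L g + (a g : ℝ) * (Mg L R g / m) = L (g + 1) := by
    have : (a g : ℝ) * (Mg L R g / m) = L (g + 1) - L g := by
      rw [← mul_div_assoc, ← hleft]
      field_simp
    linarith
  have hbm : (b : ℝ) = m - a g := by
    have : (m : ℝ) = a g + b := by exact_mod_cast hb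
    linarith
  have eR : R (g + 1) + (b : ℝ) * (Mg L R g / m) = R g := by
    have h1 : (a g : ℝ) * (Mg L R g / m) = L (g + 1) - L g := by linarith
    have h2 : (m : ℝ) * (Mg L R g / m) = Mg L R g := by field_simp
    rw [hbm, sub_mul, h1, h2]
    unfold Mg
    ring
  have hs : ∑ c ∈ range m, (min t (cellLeft m L R a g c + Mg L R g / m) -
        min t (cellLeft m L R a g c)) =
      ∑ c ∈ range (a g + b), (min t (cellLeft m L R a g c + Mg L R g / m) -
        min t (cellLeft m L R a g c)) := by rw [← hb]
  rw [hs, sum_range_add]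
  congr 1
  · have : ∀ c ∈ range (a g), (min t (cellLeft m L R a g c + Mg L R g / m) -
        min t (cellLeft m L R a g c)) =
        (fun c : ℕ => min t (L g + (c : ℝ) * (Mg L R g / m))) (c + 1) -
          (fun c : ℕ => min t (L g + (c : ℝ) * (Mg L R g / m))) c := by
      intro c hc
      have hc' := mem_range.1 hc
      simp only [cellLeft, if_pos hc']
      push_cast
      congr 2
      ring
    rw [sum_congr rfl this, sum_range_sub (fun c : ℕ => min t (L g + (c : ℝ) * (Mg L R g / m)))]
    simp only [Nat.cast_zero, zero_mul, add_zero, eL]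
  · have : ∀ c ∈ range b, (min t (cellLeft m L R a g (a g + c) + Mg L R g / m) -
        min t (cellLeft m L R a g (a g + c))) =
        (fun c : ℕ => min t (R (g + 1) + (c : ℝ) * (Mg L R g / m))) (c + 1) -
          (fun c : ℕ => min t (R (g + 1) + (c : ℝ) * (Mg L R g / m))) c := by
      intro c _
      have hc' : ¬ (a g + c < a g) := by omega
      simp only [cellLeft, if_neg hc']
      push_cast
      have e : (a g : ℝ) + (c : ℝ) - (a g : ℝ) = c := by ring
      rw [e]
      congr 2
      ring
    rw [sum_congr rfl this,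
      sum_range_sub (fun c : ℕ => min t (R (g + 1) + (c : ℝ) * (Mg L R g / m)))]
    simp only [Nat.cast_zero, zero_mul, add_zero, eR]

/-- the tiles of all cells of a band -/
theorem cell_tiles (hB : Bands m J L R a) (hm : 1 ≤ m) {S : ℕ} (hS : 1 ≤ S) (t : ℝ) {g : ℕ}
    (hg : g < J) :
    ∑ c ∈ range m, ∑ s ∈ range S, (Mg L R g / m / S) *
      (if cellLeft m L R a g c + ((s : ℝ) + 1) * (Mg L R g / m / S) ≤ t then 1 else 0) ≤
      (min t (L (g + 1)) - min t (L g)) + (min t (R g) - min t (R (g + 1))) := by
  rw [← cells hB hm t hg]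
  refine sum_le_sum fun c _ => ?_
  have hd : 0 ≤ Mg L R g / m / S := by
    have := (hB.mpos g hg).le
    positivity
  have h := tele t (cellLeft m L R a g c) (Mg L R g / m / S) hd S
  have hS' : (S : ℝ) ≠ 0 := by positivity
  have e : (S : ℝ) * (Mg L R g / m / S) = Mg L R g / m := by field_simp
  rw [e] at h
  exact h

/-- the tiles of the place of a band in an extra column -/
theorem extra_tiles (hB : Bands m J L R a) (hm : 1 ≤ m) {S : ℕ} (hS : 1 ≤ S) (t : ℝ) {g : ℕ}
    (hg : g < J) :
    ∑ i ∈ range m, ∑ s ∈ range S, (Mg L R g / m / S) *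
      (if Xg L R g + ((i : ℝ) * S + s + 1) * (Mg L R g / m / S) ≤ t then 1 else 0) ≤
      min t (Xg L R (g + 1)) - min t (Xg L R g) := by
  have hd : 0 ≤ Mg L R g / m / S := by
    have := (hB.mpos g hg).le
    positivity
  have hS' : (S : ℝ) ≠ 0 := by positivity
  have hm' : (m : ℝ) ≠ 0 := by positivity
  have h1 : ∀ i ∈ range m, ∑ s ∈ range S, (Mg L R g / m / S) *
      (if Xg L R g + ((i : ℝ) * S + s + 1) * (Mg L R g / m / S) ≤ t then 1 else 0) ≤
      (fun i : ℕ => min t (Xg L R g + (i : ℝ) * (Mg L R g / m))) (i + 1) -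
        (fun i : ℕ => min t (Xg L R g + (i : ℝ) * (Mg L R g / m))) i := by
    intro i _
    have h := tele t (Xg L R g + (i : ℝ) * (Mg L R g / m)) (Mg L R g / m / S) hd S
    have e1 : Xg L R g + (i : ℝ) * (Mg L R g / m) + (S : ℝ) * (Mg L R g / m / S) =
        Xg L R g + ((i + 1 : ℕ) : ℝ) * (Mg L R g / m) := by
      push_cast
      field_simp
      ring
    rw [e1] at h
    refine le_trans (le_of_eq ?_) h
    refine sum_congr rfl fun s _ => ?_
    have e2 : Xg L R g + ((i : ℝ) * S + s + 1) * (Mg L R g / m / S) =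
        Xg L R g + (i : ℝ) * (Mg L R g / m) + ((s : ℝ) + 1) * (Mg L R g / m / S) := by
      field_simp
      ring
    rw [e2]
  refine (sum_le_sum h1).trans (le_of_eq ?_)
  rw [sum_range_sub (fun i : ℕ => min t (Xg L R g + (i : ℝ) * (Mg L R g / m)))]
  have e3 : Xg L R g + (m : ℝ) * (Mg L R g / m) = Xg L R (g + 1) := by
    unfold Xg
    rw [sum_range_succ]
    field_simp
    ring
  simp only [Nat.cast_zero, zero_mul, add_zero, e3]

theorem total_main (hB : Bands m J L R a) (t : ℝ) :
    ∑ g ∈ range J, ((min t (L (g + 1)) - min t (L g)) + (min t (R g) - min t (R (g + 1)))) =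
      min t (R 0) - min t (L 0) := by
  rw [sum_add_distrib, sum_range_sub (fun g => min t (L g)),
    sum_range_sub' (fun g => min t (R g)), hB.meet]
  ring

theorem Xg_top (hB : Bands m J L R a) : Xg L R J = R 0 := by
  unfold Xg Mg
  rw [sum_add_distrib, sum_range_sub, sum_range_sub', hB.meet]
  ring

theorem total_extra (hB : Bands m J L R a) (t : ℝ) :
    ∑ g ∈ range J, (min t (Xg L R (g + 1)) - min t (Xg L R g)) =
      min t (R 0) - min t (L 0) := by
  rw [sum_range_sub (fun g => min t (Xg L R g)), Xg_top hB]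
  simp [Xg]

theorem final_le (hB : Bands m J L R a) (t : ℝ) :
    min t (R 0) - min t (L 0) ≤ max 0 (min t (R 0) - L 0) := by
  have hLR : L 0 ≤ R 0 := by
    have h := total_main hB (L 0 + R 0 + |L 0| + |R 0|)
    have h2 : ∀ g ≤ J, L 0 ≤ L g := by
      intro g
      induction g with
      | zero => exact fun _ => le_rfl
      | succ g ih => exact fun hg => (ih (by omega)).trans (hB.mono g (by omega))
    have h3 : ∀ g ≤ J, R g ≤ R 0 := by
      intro g
      induction g with
      | zero => exact fun _ => le_rfl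
      | succ g ih => exact fun hg => (hB.anti g (by omega)).trans (ih (by omega))
    exact (h2 J le_rfl).trans (hB.meet.le.trans (h3 J le_rfl))
  rcases le_total t (L 0) with h | h
  · rw [min_eq_left h, min_eq_left (h.trans hLR)]
    simp
  · rw [min_eq_right h]
    exact le_max_right _ _

end

/-- (U3) -/
theorem columnRow : ColumnRow := by
  intro m h S J L R a hm hS hB k t
  refine le_trans ?_ (final_le hB t)
  by_cases hk : k < m * (2 * h)
  · rw [← total_main hB t]
    refine sum_le_sum fun g hg => ?_
    have hg' := mem_range.1 hg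
    refine le_trans (le_of_eq ?_) (cell_tiles hB hm hS t hg')
    by_cases hkm : k / m < h
    · rw [← shift m (fun c => ∑ s ∈ range S, (Mg L R g / m / S) *
        (if cellLeft m L R a g c + ((s : ℝ) + 1) * (Mg L R g / m / S) ≤ t then 1 else 0)) (k % m)]
      refine sum_congr rfl fun i _ => sum_congr rfl fun s _ => ?_
      simp only [corner, if_pos hk, if_pos hkm]
    · rw [← shift_down m (fun c => ∑ s ∈ range S, (Mg L R g / m / S) *
        (if cellLeft m L R a g c + ((s : ℝ) + 1) * (Mg L R g / m / S) ≤ t then 1 else 0)) (k % m)]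
      refine sum_congr rfl fun i _ => ?_
      rw [← sum_range_reflect]
      refine sum_congr rfl fun s hs => ?_
      have hs' := mem_range.1 hs
      simp only [corner, if_pos hk, if_neg hkm]
      have e : (S : ℝ) - ((S - 1 - s : ℕ) : ℝ) = (s : ℝ) + 1 := by
        rw [Nat.cast_sub (by omega), Nat.cast_sub (by omega)]
        push_cast
        ring
      rw [e]
  · rw [← total_extra hB t]
    refine sum_le_sum fun g hg => ?_
    have hg' := mem_range.1 hg
    refine le_trans (le_of_eq ?_) (extra_tiles hB hm hS t hg')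
    by_cases hke : (k - m * (2 * h)) % 2 = 0
    · refine sum_congr rfl fun i _ => sum_congr rfl fun s _ => ?_
      simp only [corner, if_neg hk, if_pos hke]
    · rw [← sum_range_reflect]
      refine sum_congr rfl fun i hi => ?_
      have hi' := mem_range.1 hi
      rw [← sum_range_reflect]
      refine sum_congr rfl fun s hs => ?_
      have hs' := mem_range.1 hs
      simp only [corner, if_neg hk, if_neg hke]
      have e1 : (S : ℝ) - ((S - 1 - s : ℕ) : ℝ) = (s : ℝ) + 1 := by
        rw [Nat.cast_sub (by omega), Nat.cast_sub (by omega)]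
        push_cast
        ring
      have e2 : (m : ℝ) - 1 - ((m - 1 - i : ℕ) : ℝ) = (i : ℝ) := by
        rw [Nat.cast_sub (by omega), Nat.cast_sub (by omega)]
        push_cast
        ring
      have e3 : ((i : ℝ) * S + s + 1) = ((i : ℝ) * S + ((s : ℝ) + 1)) := by ring
      rw [e1, e2, e3]

end Pool.Agent.Helper3.Sharp
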