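import Mathlib

set_option autoImplicit false

/-! The integral of (y^2 - y log y) e^(-y) over (0, infinity) is 1 + gamma (helper3). -/

namespace Pool.Agent.Helper3.Sharp

open MeasureTheory Set Filter Topology

theorem mellin_log (s : ℂ) (hs : 0 < s.re) :
    MellinConvergent (fun t : ℝ => Real.log t • ((Real.exp (-t) : ℝ) : ℂ)) s ∧
      HasDerivAt (mellin fun t : ℝ => ((Real.exp (-t) : ℝ) : ℂ))
        (mellin (fun t : ℝ => Real.log t • ((Real.exp (-t) : ℝ) : ℂ)) s) s := by
  refine mellin_hasDerivAt_of_isBigO_rpow (E := ℂ) (a := s.re + 1) (b := 0) ?_ ?_ (lt_add_one _)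
    ?_ hs
  · refine (Continuous.continuousOn ?_).locallyIntegrableOn measurableSet_Ioi
    exact Complex.continuous_ofReal.comp (Real.continuous_exp.comp continuous_neg)
  · rw [← Asymptotics.isBigO_norm_left]
    simp_rw [Complex.norm_real, Asymptotics.isBigO_norm_left]
    simpa only [neg_one_mul] using (isLittleO_exp_neg_mul_rpow_atTop zero_lt_one _).isBigO
  · simp_rw [neg_zero, Real.rpow_zero]
    refine Asymptotics.isBigO_const_of_tendsto (?_ : Tendsto _ _ (𝓝 (1 : ℂ))) one_ne_zero
    rw [(by simp : (1 : ℂ) = Real.exp (-0))]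
    exact (Complex.continuous_ofReal.comp
      (Real.continuous_exp.comp continuous_neg)).continuousWithinAt

theorem deriv_value : HasDerivAt Complex.Gamma (1 - (Real.eulerMascheroniConstant : ℂ)) 2 := by
  have h := Complex.hasDerivAt_Gamma_nat 1
  have e1 : ((1 : ℕ) : ℂ) + 1 = 2 := by norm_num
  rw [e1] at h
  have e2 : (((1 : ℕ).factorial : ℂ)) * (-(Real.eulerMascheroniConstant : ℂ) + (harmonic 1 : ℂ)) =
      1 - (Real.eulerMascheroniConstant : ℂ) := by
    simp [harmonic]
    ring
  rw [e2] at h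
  exact h

theorem integral_complex :
    mellin (fun t : ℝ => Real.log t • ((Real.exp (-t) : ℝ) : ℂ)) 2 =
      1 - (Real.eulerMascheroniConstant : ℂ) := by
  have h2 : (0 : ℝ) < (2 : ℂ).re := by norm_num
  have h := (mellin_log 2 h2).2
  rw [← Complex.GammaIntegral_eq_mellin] at h
  have h' : HasDerivAt Complex.Gamma
      (mellin (fun t : ℝ => Real.log t • ((Real.exp (-t) : ℝ) : ℂ)) 2) 2 := by
    refine h.congr_of_eventuallyEq ?_
    have : {z : ℂ | 0 < z.re} ∈ 𝓝 (2 : ℂ) :=
      (isOpen_lt continuous_const Complex.continuous_re).mem_nhds h2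
    filter_upwards [this] with a ha using Complex.Gamma_eq_integral ha
  exact h'.unique deriv_value

theorem integrand_eq (t : ℝ) (ht : t ∈ Ioi (0 : ℝ)) :
    ((t : ℂ) ^ ((2 : ℂ) - 1) • (Real.log t • ((Real.exp (-t) : ℝ) : ℂ))) =
      ((t * Real.log t * Real.exp (-t) : ℝ) : ℂ) := by
  have e : ((2 : ℂ) - 1) = 1 := by norm_num
  rw [e, Complex.cpow_one]
  simp only [smul_eq_mul, Complex.real_smul]
  push_cast
  ring

/-- `t log t e^(-t)` is integrable on `(0, ∞)`. -/
theorem integrable_mul_log :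
    IntegrableOn (fun t : ℝ => t * Real.log t * Real.exp (-t)) (Ioi 0) := by
  have h2 : (0 : ℝ) < (2 : ℂ).re := by norm_num
  have h := (mellin_log 2 h2).1
  unfold MellinConvergent at h
  have h' : IntegrableOn (fun t : ℝ => ((t * Real.log t * Real.exp (-t) : ℝ) : ℂ)) (Ioi 0) :=
    h.congr_fun (fun t ht => integrand_eq t ht) measurableSet_Ioi
  have h'' := h'.re
  refine h''.congr (Eventually.of_forall fun t => ?_)
  exact Complex.ofReal_re _

/-- `∫_0^∞ t log t e^(-t) dt = 1 - γ`. -/
theorem integral_mul_log :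
    ∫ t in Ioi (0 : ℝ), t * Real.log t * Real.exp (-t) =
      1 - Real.eulerMascheroniConstant := by
  have h := integral_complex
  unfold mellin at h
  rw [setIntegral_congr_fun measurableSet_Ioi (fun t ht => integrand_eq t ht)] at h
  rw [integral_complex_ofReal] at h
  exact_mod_cast h

/-- `t^2 e^(-t)` is integrable on `(0, ∞)`. -/
theorem integrable_sq : IntegrableOn (fun t : ℝ => t ^ 2 * Real.exp (-t)) (Ioi 0) := by
  have h := Real.GammaIntegral_convergent (s := 3) (by norm_num)
  refine h.congr_fun (fun t ht => ?_) measurableSet_Ioi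
  have e : ((3 : ℝ) - 1) = ((2 : ℕ) : ℝ) := by norm_num
  simp only [e, Real.rpow_natCast]
  ring

theorem integral_sq : ∫ t in Ioi (0 : ℝ), t ^ 2 * Real.exp (-t) = 2 := by
  have h := Real.Gamma_eq_integral (s := 3) (by norm_num)
  have h3 : Real.Gamma 3 = 2 := by
    rw [show (3 : ℝ) = ((2 : ℕ) : ℝ) + 1 by norm_num, Real.Gamma_nat_eq_factorial 2]
    norm_num [Nat.factorial]
  rw [h3] at h
  rw [h]
  refine setIntegral_congr_fun measurableSet_Ioi (fun t ht => ?_)
  have e : ((3 : ℝ) - 1) = ((2 : ℕ) : ℝ) := by norm_num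
  simp only [e, Real.rpow_natCast]
  ring

/-- The function `ψ(t) = t^2 - t log t` times `e^(-t)` is integrable on `(0, ∞)`. -/
theorem integrable_psi :
    IntegrableOn (fun t : ℝ => (t ^ 2 - t * Real.log t) * Real.exp (-t)) (Ioi 0) := by
  have h := integrable_sq.sub integrable_mul_log
  refine h.congr_fun (fun t _ => ?_) measurableSet_Ioi
  simp only [Pi.sub_apply]
  ring

/-- `∫_0^∞ (t^2 - t log t) e^(-t) dt = 1 + γ`. -/
theorem integral_psi :
    ∫ t in Ioi (0 : ℝ), (t ^ 2 - t * Real.log t) * Real.exp (-t) =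
      1 + Real.eulerMascheroniConstant := by
  have e : ∀ t ∈ Ioi (0 : ℝ), (t ^ 2 - t * Real.log t) * Real.exp (-t) =
      t ^ 2 * Real.exp (-t) - t * Real.log t * Real.exp (-t) := fun t _ => by ring
  rw [setIntegral_congr_fun measurableSet_Ioi e,
    integral_sub integrable_sq integrable_mul_log, integral_sq, integral_mul_log]
  ring

end Pool.Agent.Helper3.Sharp
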