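import Pool.Agent.Helper18.Sharp.Int

set_option autoImplicit false

/-! (U8a) The integral of `-log (negMulLog x)` over `0..1` (helper18's `int_lT`, restated). -/

namespace Pool.Agent.Helper3.Sharp

open MeasureTheory

theorem neg_log_negMulLog : (fun x : ℝ => -Real.log (Real.negMulLog x)) =
    Pool.Agent.Helper18.Sharp.lT := by
  funext x
  simp only [Real.negMulLog, Pool.Agent.Helper18.Sharp.lT, neg_mul]

theorem intervalIntegrable_neg_log_T :
    IntervalIntegrable (fun x : ℝ => -Real.log (Real.negMulLog x)) volume 0 1 := by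
  rw [neg_log_negMulLog]
  exact Pool.Agent.Helper18.Sharp.intervalIntegrable_lT

theorem int_neg_log_T :
    ∫ x in (0 : ℝ)..1, -Real.log (Real.negMulLog x) = 1 + Real.eulerMascheroniConstant := by
  have h := Pool.Agent.Helper18.Sharp.int_lT
  rw [← neg_log_negMulLog] at h
  exact h

end Pool.Agent.Helper3.Sharp
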